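import Pool.Agent.Lib.MP_a966e6_co.PNU.Run

/-! Data: pages of `K_105`. -/

set_option autoImplicit false

namespace Pool.Agent.Lib.MP_a966e6_co.PNU.Dat

def dU35 : List Pg := [
  (35, [0, 1, 2, 3, 4, 5, 6], [], 0x1000000000228006600190005c5e348680000000000000118f4a2552b1a03000000007c001600056001395cc413000009a00000a4001700058846709000000000000001c1b1289c4f3084400000000000312597cc600131901a00000006e0012800480010140b60c000008c000008800100003c76600580000000000000151790c8e482d02800002600074001c8006a00109940e0000000000015110b05c0007cba0600000003000078001d00064925402800003f0000036000480010342c8100000000000000070a078402094c0600000007052000002800010b4cc01),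
  (35, [7, 8, 9, 10, 11, 12, 13], [], 0x100000000022800640018000505a34878000000000720013000484e2c19c38000000000000008c824b29954d0140000000001680034000c108985b0800000001d0004e001293c001d2c8380000288007c001e000680015198180000000000017934ae5f00080c20b0000000001c00052562f0003e6005000000000000620009900904a2e8240000000000021000487e47249701000000005c000d80032000890ca40700000a0001e8007600000546665030000046000004400078001a373201400002a0006c000005c00041618c0400001100035000002c00018acc401),
  (105, [14, 15, 16, 17, 18, 19, 20, 21, 22, 23, 24, 25, 26, 27, 28, 29, 30, 31, 32, 33, 34], [], 0x8000000000007e0019970002d309a03e000000000001492400222b974d21d00000002e000aca2620d800004e000d8c81700000003b00080885b0980000000008c8a552c0480000000c4a4000d17c220000000584b318400000208004a60078000043001000030330380000000907456060000046000004c2f3382c00000000054000f11c00182614c14000000000000a0d0000d21120a80800000a0001a80050590380000000c8002c3c26818000000000383d251940a00000f80000000540009190dcbc030000072001093c0400000e000000209cb401)]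

theorem cU35 : chk 35 5 dU35 = true := by decide +kernel

end Pool.Agent.Lib.MP_a966e6_co.PNU.Dat
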