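import Pool.Agent.Lib.MP_a966e6_co.PNU.Run

/-! Data: pages of `K_33`. -/

set_option autoImplicit false

namespace Pool.Agent.Lib.MP_a966e6_co.PNU.Dat

def dUT11 : List Pg := [
  (33, [10, 0, 1, 2, 3, 4, 5, 6, 7, 8, 9], [10], 0x1000000000080001800038683a060000000130e0001a1e028000000000442e000406440040000000000002824140c06c060000000000004800040e078543e01)]

theorem cUT11 : chk 11 3 dUT11 = true := by decide +kernel

theorem tUT11 : hasT 11 3 dUT11 = true := by decide +kernel

end Pool.Agent.Lib.MP_a966e6_co.PNU.Dat
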