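import Pool.Agent.Lib.MP_a966e6_co.PNU.Run

/-! Data: pages of `K_39`. -/

set_option autoImplicit false

namespace Pool.Agent.Lib.MP_a966e6_co.PNU.Dat

def dUT13 : List Pg := [
  (13, [12, 0, 1, 2, 3, 4, 5, 6, 7, 8, 9, 10, 11], [12], 0x80000000e0002c0008898140000000000000040301b0f880440700000000f0002432240200000150004c001200038000b1080c00000005c3c000608c0400000740000040000c00028504a01)]

theorem cUT13 : chk 13 1 dUT13 = true := by decide +kernel

theorem tUT13 : hasT 13 1 dUT13 = true := by decide +kernel

end Pool.Agent.Lib.MP_a966e6_co.PNU.Dat
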