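import Pool.Agent.Lib.MP_a966e6_co.PNU.Run

/-! Data: pages of `K_45`. -/

set_option autoImplicit false

namespace Pool.Agent.Lib.MP_a966e6_co.PNU.Dat

def dUT15 : List Pg := [
  (15, [14, 0, 1, 2, 3], [14], 0x800000000000001a0004c4a2600048542c068000000000001c1c0003000081088852070000000000c0800010118a00c00000740000000001600020582e1b1580c0000000001415000143e27010000019000000009088504801),
  (15, [4, 5, 6, 7, 8], [4], 0x10000000000004c4224168340000000684c2c06000001d0005c540b00000000e0d8a410000000000110c07c5007000003c000a800242b020000000078000c1c1100c00000c8002000048940400000800000050584e01),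
  (15, [9, 10, 11, 12, 13], [9], 0x800000000058001200044000d118b416000000000000b87c440007090540900000001b138002a0009800202c04000000000000000f0d07040211281400000007852000001c00030a0ac040000000000c0c0000c00020744c01)]

theorem cUT15 : chk 15 3 dUT15 = true := by decide +kernel

theorem tUT15 : hasT 15 3 dUT15 = true := by decide +kernel

end Pool.Agent.Lib.MP_a966e6_co.PNU.Dat
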