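import Pool.Agent.Lib.MP_a966e6_co.PNU.Run

/-! Data: pages of `K_51`. -/

set_option autoImplicit false

namespace Pool.Agent.Lib.MP_a966e6_co.PNU.Dat

def dUT17 : List Pg := [
  (51, [16, 0, 1, 2, 3, 4, 5, 6, 7, 8, 9, 10, 11, 12, 13, 14, 15], [16], 0x200000000028000680013160c01a0000000001412098640c000000027000605400080b816000000000150e09462090000000000907c402f0200000000003c000a0e80010231680c00000000000160c8000e000306c0005108ac040000000000e0b8785201)]

theorem cUT17 : chk 17 3 dUT17 = true := by decide +kernel

theorem tUT17 : hasT 17 3 dUT17 = true := by decide +kernel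

end Pool.Agent.Lib.MP_a966e6_co.PNU.Dat
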