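import Pool.Agent.Lib.MP_a966e6_co.PNU.Run

/-! Data: pages of `K_57`. -/

set_option autoImplicit false

namespace Pool.Agent.Lib.MP_a966e6_co.PNU.Dat

def dUT19 : List Pg := [
  (19, [18, 0, 1, 2, 3, 4, 5, 6, 7, 8, 9, 10, 11, 12, 13, 14, 15, 16, 17], [18], 0x100000003100084001a000546e0d000000000100a05a00088d016000000000000a0884a2e1902800000006456000b8002c36048000000138d400000607470080000000000e0a40010150b00a000000000060c00008231780c000000078000e0001c483301000001f0006c00120003c6001)]

theorem cUT19 : chk 19 1 dUT19 = true := by decide +kernel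

theorem tUT19 : hasT 19 1 dUT19 = true := by decide +kernel

end Pool.Agent.Lib.MP_a966e6_co.PNU.Dat
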