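import Pool.Agent.Lib.MP_a966e6_co.PNU.Run

/-! Data: pages of `K_81`. -/

set_option autoImplicit false

namespace Pool.Agent.Lib.MP_a966e6_co.PNU.Dat

def dUT27 : List Pg := [
  (9, [0, 1, 2], [], 0x40000000000000170e8001e0005c7800088fc9410000000000201300030000a49c00118004451058000000000004c3d0006c7c44000600016258280000000000025188002a00070cc00081b1040e0000000704f000b40000000705000060a8a00500000000000000282b000245832000187249020000000000bc8c001211c00000004c3e212680c0000000006e430009c00202280034000c92004000000000000e8d000121a8ec000f000348401),
  (9, [3, 4, 5], [], 0x40000000000000178ec001f000607a000910096110000000000009c7c000e0fc8a000c8002e4c058000000000004c3200058000f1a0001237210200000000e4a0001700000000e8a4000d159440c00000000000000545800050b46600038e894050000000001811c00252400000000a080444e020000000000e088001400042460006c001a2480c000000000001e1a80026361e00020000710c040000000824d000c4002a00000000c118909e01),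
  (27, [26, 6, 7, 8, 9, 10, 11, 12, 13], [9, 10, 26], 0x200000000000178003a000c8f48c500a80000001d000403f0005c92120000000211b80030450700000001c8004e470008c980d0000000000f000182c1890c10000000000000d00020301a0e0940700000880015000384e030000048000b800000f8909a0500000002d0004c6400048ec08000000050000b0f800112100c0000000d4002b2580000141113c0400000005200078cc7801),
  (9, [14, 15, 16], [], 0x40000000000000168e4001d000587600080f8920f00000000000000383300044683a000388251060000000000fc960017800504d0008800212802800000000000251e000343d218002e000a9281200000000000120c00014000346400038d480060000000372700058000000036270002c524f02000000000000001315000102b188000a382400c0000000005c450008c8c0000000241e101300400000000036210004c000f9100019000608e01),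
  (9, [17, 18, 19], [], 0x20000000002c1d9302800000f00000138d0a213000000039000948c4e09000003100080941100000001f1c1401c00000f80026268340000000846c000c92418000000046322182c000019800001e1592014000000060000e0f48a090000050000b904100000000000f120dc960700000840017000364f0300000000b0bc8e05000006a000e910080000000302d00040800300000001a148e80400000a800000a8887e01),
  (9, [20, 21, 22], [], 0x2000000000301f9403000000d40024270540000210005451088000000128e8001d2684000000009c6c4707800003700000442f260380000000d00020209241a00000b0001b2283000000000026281d93c16000000034332582400001c80042480400000000e0c400142201c0000000785a3e03000002e000003226218140000000ac00171c10008000008c00121e00c000000000141f191180400000f40029000589401),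
  (9, [23, 24, 25], [], 0x2000000000291f00042510a0000000158e896130000076000009866500900000001c0004845268440000180003e490800000000f0dc9e0d000007a0012930180000000403500060900b000000022189081400000c800000e8a88e0900000002f0006c78440400000270005880070000000000708c6c4a030000041000b4001a270140000000545c46020000034000708603000000017160001e3f0100000000c8a07201)]

theorem cUT27 : chk 27 3 dUT27 = true := by decide +kernel

theorem tUT27 : hasT 27 3 dUT27 = true := by decide +kernel

end Pool.Agent.Lib.MP_a966e6_co.PNU.Dat
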