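import Pool.Agent.Lib.MP_a966e6_co.PNU.Run

/-! Data: pages of `K_117`. -/

set_option autoImplicit false

namespace Pool.Agent.Lib.MP_a966e6_co.PNU.Dat

def dUT39 : List Pg := [
  (39, [38, 0, 1, 2, 3, 4, 5, 6, 7, 8, 9, 10, 11], [4, 18, 38], 0x100000000000148e272001140029398700000000dcb26b0c00000001b160e81700000b400000005440209bc28000000084001816cda1200000a800000bc7870088000044000c8cc10000009a00189941e00000007a0014154dc0e0000000000f8e4ae690680000002899c003b00084d00c00000001d1f9781600000004c3e2e828000023000001b1a1801200000005a4900054be08000000000100d49e64038000056000e000223181800000010ca000128004800119b008000000066480006800193100c000000000002b2512c001e261a804000011c00000b0b8b801),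
  (39, [12, 13, 14, 15, 16, 17, 18, 19, 20, 21, 22, 23, 24], [], 0x20000000000022150ca7311800004c000f8002d3887400000000000001d8004e562f99cd26d0e0000000000dc8e58330580000000005800140004c000f140b66f0a800000023000840020000706a000bcea14000007e0018800406408000000000000002e0006892522d170c00f00000005130800607205800005e00000303d37028000000000543a25964120000000001f0006c001900044864e310200000000e40035000cc002b2e8004468038000000128002e4a3581800002a800820000048000e000306c700200000320009000132b80c0000000000000108001a3c229349e53010000000001200034319b00000028a4e801),
  (39, [25, 26, 27, 28, 29, 30, 31, 32, 33, 34, 35, 36, 37], [], 0x200000000000000dcb45d3200048690d000000027000500011800385835864000000000764700078ac6d0c000000023198002f00080d814000000055308007000191c02400001a00042000f40036000cce410000000000000a89a502b8002e5c0680000002080036000b0001e4b2f0300000000005c3a00044926005800000000000001d2010c944f3a82800003100000000f8fc8a6e0400000001c96400220004cbe07000000000161300015291bc0c00000009054000ac0025318140000298000000108b4787302000005b000d40030000a400263280c00002880000340003800091f1d00400000000044339a80000138c4e201)]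

theorem cUT39 : chk 39 3 dUT39 = true := by decide +kernel

theorem tUT39 : hasT 39 3 dUT39 = true := by decide +kernel

end Pool.Agent.Lib.MP_a966e6_co.PNU.Dat
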