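import Pool.Agent.Lib.MP_a966e6_co.PNU.Run

/-! Data: pages of `K_21`. -/

set_option autoImplicit false

namespace Pool.Agent.Lib.MP_a966e6_co.PNU.Dat

def dUT7 : List Pg := [
  (7, [6, 0, 1, 2, 3, 4, 5], [6], 0x40000000000000040301a100900c00000003c260000010141401000000b000240006000142201)]

theorem cUT7 : chk 7 1 dUT7 = true := by decide +kernel

theorem tUT7 : hasT 7 1 dUT7 = true := by decide +kernel

end Pool.Agent.Lib.MP_a966e6_co.PNU.Dat
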