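import Pool.Agent.Lib.MP_a966e6_co.PNU.Run

/-! Data: pages of `K_27`. -/

set_option autoImplicit false

namespace Pool.Agent.Lib.MP_a966e6_co.PNU.Dat

def dUT9 : List Pg := [
  (9, [8, 0, 1], [8], 0x400000000000000002c26160b86000080c80c00000a8002000078001c0006800141a010000000060000e00030000a00020442801),
  (9, [2, 3, 4], [0, 1], 0x100000000000040000c0b06000090d0140000000001c00040000c120a86408000005c00110003c0000038343603),
  (9, [5, 6, 7], [], 0x20000000000e0986c0e0000000000c0a0583406000002400050640a0000044000d0002c3003000000008000101e15010000000048402e01)]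

theorem cUT9 : chk 9 3 dUT9 = true := by decide +kernel

theorem tUT9 : hasT 9 3 dUT9 = true := by decide +kernel

end Pool.Agent.Lib.MP_a966e6_co.PNU.Dat
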