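import Pool.Agent.Lib.MP_a966e6_co.PNU.Check

set_option autoImplicit false

namespace Pool.Agent.Lib.MP_a966e6_co.PNU

def dFrC2_10 : List Base := [([(0, 0), (1, 1), (2, 2), (3, 3), (4, 4), (5, 5), (6, 6), (7, 7), (8, 8), (9, 9), (10, 10), (11, 11), (12, 12), (13, 13), (14, 14), (15, 15), (16, 16), (17, 17), (18, 18), (19, 19)],
   [([1, 3, 6, 18, 37, 45], [(1, 3), (1, 37), (1, 45), (3, 6), (3, 37), (6, 18), (6, 37), (18, 37), (37, 45)]),
    ([2, 11, 12, 16, 27, 44, 49], [(2, 11), (2, 49), (11, 12), (11, 49), (12, 16), (12, 49), (16, 27), (16, 44), (16, 49), (27, 44), (44, 49)]),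
    ([4, 9, 22, 31, 32, 36, 47], [(4, 9), (4, 36), (4, 47), (9, 22), (9, 31), (9, 32), (9, 36), (22, 31), (31, 32), (32, 36), (36, 47)]),
    ([5, 21, 23, 26, 38, 57], [(5, 21), (5, 57), (21, 23), (21, 57), (23, 26), (23, 57), (26, 38), (26, 57), (38, 57)]),
    ([7, 24, 29, 42, 51, 52, 56], [(7, 24), (7, 56), (24, 29), (24, 56), (29, 42), (29, 51), (29, 52), (29, 56), (42, 51), (51, 52), (52, 56)]),
    ([8, 15, 33, 39, 54], [(8, 15), (8, 33), (8, 54), (15, 33), (33, 39), (33, 54), (39, 54)]),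
    ([13, 19, 34, 48, 55], [(13, 19), (13, 34), (13, 48), (13, 55), (19, 34), (34, 48), (48, 55)]),
    ([14, 28, 35, 53, 59], [(14, 28), (14, 53), (14, 59), (28, 35), (28, 53), (35, 53), (53, 59)]),
    ([17, 25, 41, 43, 46, 58], [(17, 25), (17, 41), (17, 43), (17, 46), (17, 58), (25, 41), (41, 43), (43, 46), (46, 58)])])]

theorem pFrC2_10 : FrC 2 10 := sys_of_check _ _ _ _ dFrC2_10 (by decide +kernel)

end Pool.Agent.Lib.MP_a966e6_co.PNU
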