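import Pool.Agent.Lib.MP_a966e6_co.PNU.Check

set_option autoImplicit false

namespace Pool.Agent.Lib.MP_a966e6_co.PNU

def dFrC2_6 : List Base := [([(0, 0), (3, 3), (6, 6), (9, 9)],
   [([1, 2, 3, 4, 8, 17, 19, 21, 23, 34], [(1, 2), (1, 21), (1, 23), (1, 34), (2, 3), (2, 17), (2, 19), (2, 21), (3, 4), (3, 17), (4, 8), (4, 17), (8, 17), (17, 19), (19, 21), (21, 23), (23, 34)]),
    ([5, 7, 9, 11, 22, 25, 26, 27, 28, 32], [(5, 7), (5, 26), (5, 27), (5, 28), (5, 32), (7, 9), (7, 26), (9, 11), (9, 25), (9, 26), (11, 22), (11, 25), (22, 25), (25, 26), (26, 27), (27, 28), (28, 32)]),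
    ([10, 13, 14, 15, 16, 20, 29, 31, 33, 35], [(10, 13), (10, 35), (13, 14), (13, 33), (13, 35), (14, 15), (14, 29), (14, 31), (14, 33), (15, 16), (15, 29), (16, 20), (16, 29), (20, 29), (29, 31), (31, 33), (33, 35)])]),
  ([(0, 1), (3, 4)],
   [([0, 9, 14, 22, 29], [(0, 9), (0, 29), (9, 14), (9, 22), (9, 29), (14, 22), (22, 29)]),
    ([2, 10, 17, 24, 33], [(2, 10), (2, 33), (10, 17), (10, 33), (17, 24), (17, 33), (24, 33)]),
    ([3, 8, 16, 23, 30], [(3, 8), (3, 16), (3, 23), (3, 30), (8, 16), (16, 23), (23, 30)]),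
    ([4, 11, 18, 27, 32], [(4, 11), (4, 27), (4, 32), (11, 18), (11, 27), (18, 27), (27, 32)]),
    ([5, 12, 21, 26, 34], [(5, 12), (5, 21), (5, 34), (12, 21), (21, 26), (21, 34), (26, 34)]),
    ([6, 15, 20, 28, 35], [(6, 15), (6, 35), (15, 20), (15, 28), (15, 35), (20, 28), (28, 35)])]),
  ([(0, 2), (3, 5)],
   [([0, 10, 19, 29, 33], [(0, 10), (0, 19), (0, 33), (10, 19), (19, 29), (19, 33), (29, 33)]),
    ([1, 11, 15, 18, 28], [(1, 11), (1, 15), (1, 18), (1, 28), (11, 15), (15, 18), (18, 28)]),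
    ([3, 6, 16, 25, 35], [(3, 6), (3, 25), (3, 35), (6, 16), (6, 25), (16, 25), (25, 35)]),
    ([4, 13, 23, 27, 30], [(4, 13), (4, 30), (13, 23), (13, 27), (13, 30), (23, 27), (27, 30)]),
    ([5, 9, 12, 22, 31], [(5, 9), (5, 31), (9, 12), (9, 31), (12, 22), (12, 31), (22, 31)]),
    ([7, 17, 21, 24, 34], [(7, 17), (7, 21), (7, 24), (7, 34), (17, 21), (21, 24), (24, 34)])]),
  ([(0, 7), (3, 10)],
   [([0, 8, 11, 21, 28], [(0, 8), (0, 21), (0, 28), (8, 11), (8, 21), (11, 21), (21, 28)]),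
    ([2, 5, 15, 22, 30], [(2, 5), (2, 15), (2, 30), (5, 15), (15, 22), (15, 30), (22, 30)]),
    ([3, 10, 18, 26, 29], [(3, 10), (3, 18), (3, 26), (3, 29), (10, 18), (18, 26), (26, 29)]),
    ([4, 12, 20, 23, 33], [(4, 12), (4, 33), (12, 20), (12, 33), (20, 23), (20, 33), (23, 33)]),
    ([6, 14, 17, 27, 34], [(6, 14), (6, 27), (6, 34), (14, 17), (14, 27), (17, 27), (27, 34)]),
    ([9, 16, 24, 32, 35], [(9, 16), (9, 24), (9, 32), (9, 35), (16, 24), (24, 32), (32, 35)])]),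
  ([(0, 8), (3, 11)],
   [([0, 11, 16, 27, 31], [(0, 11), (0, 31), (11, 16), (11, 31), (16, 27), (16, 31), (27, 31)]),
    ([1, 6, 17, 22, 33], [(1, 6), (1, 17), (1, 22), (1, 33), (6, 17), (17, 22), (22, 33)]),
    ([3, 7, 12, 23, 28], [(3, 7), (3, 28), (7, 12), (7, 23), (7, 28), (12, 23), (23, 28)]),
    ([4, 15, 19, 24, 35], [(4, 15), (4, 19), (4, 35), (15, 19), (19, 24), (19, 35), (24, 35)]),
    ([5, 10, 21, 25, 30], [(5, 10), (5, 25), (5, 30), (10, 21), (10, 25), (21, 25), (25, 30)]),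
    ([9, 13, 18, 29, 34], [(9, 13), (9, 34), (13, 18), (13, 29), (13, 34), (18, 29), (29, 34)])])]

theorem pFrC2_6 : FrC 2 6 := sys_of_check _ _ _ _ dFrC2_6 (by decide +kernel)

end Pool.Agent.Lib.MP_a966e6_co.PNU
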