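import Pool.Agent.Lib.MP_a966e6_co.PNU.Check

set_option autoImplicit false

namespace Pool.Agent.Lib.MP_a966e6_co.PNU

def dFrC2_7 : List Base := [([(0, 0), (1, 1), (2, 2), (3, 3), (4, 4), (5, 5), (6, 6), (7, 7), (8, 8), (9, 9), (10, 10), (11, 11), (12, 12), (13, 13)],
   [([1, 12, 25, 31], [(1, 12), (1, 31), (12, 25), (12, 31), (25, 31)]),
    ([2, 4, 9, 19, 20, 24, 27, 36], [(2, 4), (2, 20), (2, 24), (2, 27), (2, 36), (4, 9), (4, 19), (4, 20), (9, 19), (19, 20), (20, 24), (24, 27), (27, 36)]),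
    ([3, 15, 26, 39], [(3, 15), (3, 26), (3, 39), (15, 26), (26, 39)]),
    ([5, 6, 10, 13, 22, 30, 32, 37], [(5, 6), (5, 32), (5, 37), (6, 10), (6, 30), (6, 32), (10, 13), (10, 30), (13, 22), (13, 30), (22, 30), (30, 32), (32, 37)]),
    ([8, 16, 18, 23, 33, 34, 38, 41], [(8, 16), (8, 41), (16, 18), (16, 34), (16, 38), (16, 41), (18, 23), (18, 33), (18, 34), (23, 33), (33, 34), (34, 38), (38, 41)]),
    ([11, 17, 29, 40], [(11, 17), (11, 40), (17, 29), (17, 40), (29, 40)])])]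

theorem pFrC2_7 : FrC 2 7 := sys_of_check _ _ _ _ dFrC2_7 (by decide +kernel)

end Pool.Agent.Lib.MP_a966e6_co.PNU
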