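import Pool.Agent.Lib.MP_a966e6_co.PNU.Check

set_option autoImplicit false

namespace Pool.Agent.Lib.MP_a966e6_co.PNU

def dFrC2_8 : List Base := [([(0, 0), (9, 1), (18, 2), (3, 3), (12, 4), (21, 5), (6, 6), (15, 7), (24, 8), (33, 9), (42, 10), (27, 11), (36, 12), (45, 13), (30, 14), (39, 15)],
   [([1, 5, 11, 23, 26, 27, 37, 46], [(1, 5), (1, 26), (1, 46), (5, 11), (5, 23), (5, 26), (11, 23), (23, 26), (26, 27), (26, 46), (27, 37), (27, 46), (37, 46)]),
    ([2, 13, 18, 22, 28, 41, 43], [(2, 13), (2, 43), (13, 18), (13, 43), (18, 22), (18, 43), (22, 28), (22, 41), (22, 43), (28, 41), (41, 43)]),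
    ([3, 10, 25, 36, 42], [(3, 10), (3, 25), (3, 42), (10, 25), (25, 36), (25, 42), (36, 42)]),
    ([4, 6, 7, 19, 29, 34, 35, 39], [(4, 6), (4, 35), (4, 39), (6, 7), (6, 29), (6, 34), (6, 35), (7, 19), (7, 29), (19, 29), (29, 34), (34, 35), (35, 39)]),
    ([9, 20, 30, 44], [(9, 20), (9, 30), (9, 44), (20, 30), (30, 44)]),
    ([12, 15, 17, 31, 45], [(12, 15), (12, 45), (15, 17), (15, 45), (17, 31), (17, 45), (31, 45)]),
    ([14, 21, 33, 38, 47], [(14, 21), (14, 47), (21, 33), (21, 38), (21, 47), (33, 38), (38, 47)])])]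

theorem pFrC2_8 : FrC 2 8 := sys_of_check _ _ _ _ dFrC2_8 (by decide +kernel)

end Pool.Agent.Lib.MP_a966e6_co.PNU
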