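import Pool.Agent.Lib.MP_a966e6_co.PNU.Run

/-! Data: pages of `K_30`. -/

set_option autoImplicit false

namespace Pool.Agent.Lib.MP_a966e6_co.PNU.Dat

def dU10 : List Pg := [
  (10, [0, 1, 2, 3, 4], [6, 7], 0x40000000000010000302e0005864000a0e810000000000000e000242800028542c1a0180000180004c00000001800020683c3c01),
  (10, [5, 6, 7, 8, 9], [], 0x80000000003c2c1e048000000000342a00040603606000002800060740a0000000221a00038000b0e00c00000002826190100000000001c2000020482e01)]

theorem cU10 : chk 10 2 dU10 = true := by decide +kernel

end Pool.Agent.Lib.MP_a966e6_co.PNU.Dat
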