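import Pool.Agent.Lib.MP_a966e6_co.PNU.Run

/-! Data: pages of `K_36`. -/

set_option autoImplicit false

namespace Pool.Agent.Lib.MP_a966e6_co.PNU.Dat

def dU12 : List Pg := [
  (18, [0, 1, 2, 3, 4, 5], [], 0x800000000000001000030000a0c8703c2203800001b000500013000444206000000017000484000070900a0000054000d000203a040000000160d000161f0180000180000012000103c4601),
  (12, [6, 7, 8, 9], [], 0x80000000e00028000880016220480000210000020000405846050000000000a85c3a000508008000006800000003424131200c0000000643c0007800181f010000000070600007000183601),
  (6, [10, 11], [1, 2, 3, 7, 8, 9], 0x400000000032230004800111201c0000000001a1700018301f02800000009874000c0002c3c01)]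

theorem cU12 : chk 12 3 dU12 = true := by decide +kernel

end Pool.Agent.Lib.MP_a966e6_co.PNU.Dat
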