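import Pool.Agent.Lib.MP_a966e6_co.PNU.Run

/-! Data: pages of `K_48`. -/

set_option autoImplicit false

namespace Pool.Agent.Lib.MP_a966e6_co.PNU.Dat

def dU16 : List Pg := [
  (24, [0, 1, 2, 3, 4, 5, 6, 7], [3, 11], 0x40000000000017118001c261782c000000000261f00034502a048000000100002c2d000545c08000000000090840010128ac0e000008800000786c6005000000000050603a270180000000000022000300004190d0785201),
  (12, [8, 9, 10, 11], [], 0x200000000000118940014140c01c0000000302600040000d1602c00000007c5400088001e2d0500000001109c00150004852070000000000b06c00090e8ac0c000000000130f0000a211700c0000000002e19000203824010000000000303400020805e01),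
  (12, [12, 13, 14, 15], [], 0x2000000000000e08c4800088b81a0000000502f00000321d180280000000784c000a8001e2b0400000001009c0013000385a06000004a000b0001800058a408000000000120d000121f1600c000000000281b0001c422a010000000000402e18000144401)]

theorem cU16 : chk 16 3 dU16 = true := by decide +kernel

end Pool.Agent.Lib.MP_a966e6_co.PNU.Dat
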