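import Pool.Agent.Lib.MP_a966e6_co.PNU.Run

/-! Data: pages of `K_54`. -/

set_option autoImplicit false

namespace Pool.Agent.Lib.MP_a966e6_co.PNU.Dat

def dU18 : List Pg := [
  (27, [0, 1, 2, 3, 4, 5, 6, 7, 8], [], 0x200000000000000000019130002400088a0000f150b0000d168d01600000002e000708c5c090000000000989052320400000270007400000b0706a070000000000a884000a128c00c00000ac001f0000000140d8786605000005e000000020000206040360180000000003000020d0886201),
  (18, [9, 10, 11, 12, 13, 14], [14], 0x400000009c001e1b0440000000544835060000000000003022130b05e0a00000001f000585200098001c2d03800001d000680014000405c060000000000006440000489450310280000230004860030000054000002c00080e0d00400000ac00000003400040b86c6401),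
  (9, [15, 16, 17], [3, 7, 12, 16], 0x10000000270000038211a03800000006c4c360580000000a888000f19028000012000282f048000000128002e2a1801c00000f00000130c0ac0a00000b800200004066030000000120e8b40400000001819000185201)]

theorem cU18 : chk 18 3 dU18 = true := by decide +kernel

end Pool.Agent.Lib.MP_a966e6_co.PNU.Dat
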