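import Pool.Agent.Lib.MP_a966e6_co.PNU.Run

/-! Data: pages of `K_60`. -/

set_option autoImplicit false

namespace Pool.Agent.Lib.MP_a966e6_co.PNU.Dat

def dU20 : List Pg := [
  (15, [0, 1, 2, 3, 4], [2, 7, 12, 17], 0x8000000000000000000003c2714000222a160002000070b8000c000285e3c0480000000005048291881c00000004c000b128c80c0000088001a000546805000000023198002c38020000000000005a361b8004039000000000000001e180c800041b0e87c7601),
  (30, [5, 6, 7, 8, 9, 10, 11, 12, 13, 14], [], 0x40000000000027188e000181e0480000000845c000c80028390700000000b8a0680b000000016148d41400000c0001e0006800131b0240000168000000078744c3b040000000000303e221981c0000000001a1c00018402f028000000160c8001b000406e03000005600000002223120e80400000002a00020945401),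
  (15, [15, 16, 17, 18, 19], [], 0x800000000000001c0004c5400078b4623a060000000128d4001f00050700a00000002400044603b048000000000644600058b8680800000001d13800242f030000000000584c00080a46e0500000002b0008872000f000000d0d8f0080000000000e0c08066030000058000005442360100000280000000070b8686401)]

theorem cU20 : chk 20 3 dU20 = true := by decide +kernel

end Pool.Agent.Lib.MP_a966e6_co.PNU.Dat
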