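import Pool.Agent.Lib.MP_a966e6_co.PNU.Run

/-! Data: pages of `K_66`. -/

set_option autoImplicit false

namespace Pool.Agent.Lib.MP_a966e6_co.PNU.Dat

def dU22 : List Pg := [
  (22, [0, 1, 2, 3, 4, 5, 6, 7, 8, 9, 10], [7], 0x4000000000402f1e03400000000000250006c00180005c66371e8002c3f06000002600064720a000000000000ac643a1f00034400480000000000000220004c00110002c582d170c4760700000001f0005000120003860410300000000000000150e090502a1a8100000000404636018000038000a40027000840000078000a00010748401),
  (22, [11, 12, 13, 14, 15, 16, 17, 18, 19, 20, 21], [12], 0x80000000009c6e4009800002a000847e1100000001f0006868000b9082000000003a000a8bc740c000000014148f41600000000026000585a301a82000000009070000c9040e00000004a000c00024311b018000000000000a0e0a05c3b02800000000038442b1980c00000008064000003c363e0100000000002400040f0b07801)]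

theorem cU22 : chk 22 2 dU22 = true := by decide +kernel

end Pool.Agent.Lib.MP_a966e6_co.PNU.Dat
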