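import Pool.Agent.Lib.MP_a966e6_co.PNU.Run

/-! Data: pages of `K_72`. -/

set_option autoImplicit false

namespace Pool.Agent.Lib.MP_a966e6_co.PNU.Dat

def dU24 : List Pg := [
  (24, [0, 1, 2, 3, 4, 5, 6, 7], [9, 23], 0x1000000000198f4001e2284000000008c001a0006400131a1181c0000000002c0007c001d1c0f000170004800111f824000000000000000084522a0003c000c178d46e440400000000006c4a2d200180000000007241210004e001200000140001c4047028000000000000016130ac62321d8100000140002a00068d80600000005c3e000001600010708601),
  (36, [8, 9, 10, 11, 12, 13, 14, 15, 16, 17, 18, 19], [], 0x10000000001600044400006c86120000000000008c66000a0d076420880000000007800171a80020382383c0000000b87400108f81600000bc001a000588a0a000005a000c8f41200000006c000f8fc001c230200000000003024130e40e00000c400000e80018282201800000004c5237028000000000001a20150c08204000007800000545648010000000128001c270000c6401),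
  (12, [20, 21, 22, 23], [4, 16], 0x20000000000011000262d1d9201e0000000503d00080840e000000026000487040068000000170003e390006c8e0c000007400158000018139141600000006000118fc00152182800000000048000b8cc6e46048000000000404a2a1f0200000190003c000c91008000000000160001c422f1e00c00000007062000a0d80400000003400030b06801)]

theorem cU24 : chk 24 3 dU24 = true := by decide +kernel

end Pool.Agent.Lib.MP_a966e6_co.PNU.Dat
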