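import Pool.Agent.Lib.MP_a966e6_co.PNU.Run

/-! Data: pages of `K_84`. -/

set_option autoImplicit false

namespace Pool.Agent.Lib.MP_a966e6_co.PNU.Dat

def dU28 : List Pg := [
  (14, [0, 1, 2, 3, 4, 5, 6, 7, 8, 9, 10, 11, 12, 13], [5, 19], 0x200000000000000d080460006c92520c80000001b144002d000a800242986000000000062001011c904f0980000000005c0010178f09a0f0000000000009864380003476440580000001410c001f00070001622828000000000343500044000e1b9401000000004a000f0f4001d2501c0000000004600090e47441028000033000b000000a8ac96040000000422700000000609c5254018000000000240002108b87e01),
  (12, [14, 15, 16, 17, 18, 19, 20, 21, 22, 23, 24, 25], [], 0x8000000238006a000008462520980000000000048331c1089410000000026000780014201501e00000000023000445c4328834000019000540010000364c0600000001c8005649000589a0b000000000168003e3d2094c1400000005e000e8e800192782400001d8005200000544a460380000001e12c0000070a0a006000000000000604e2c1b0f808000000034000900010342400c000000000603f22000384e0100000000005c0005110dc8a01),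
  (2, [26, 27], [], 0x1000000041000a8a817000007e00141482a00000f400262804c0000000a4785309000003b000909c110000000271d1442000000e400222603c000000094704f07000003700080940d0000000231b1341800000d4001e2402c000000084684b050000033000708c0900000001f191241000000c4001a2201c000000074604703000002f00060840500000001b171140800000b400162000c000000064584301000002b000507c01)]

theorem cU28 : chk 28 1 dU28 = true := by decide +kernel

end Pool.Agent.Lib.MP_a966e6_co.PNU.Dat
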