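import Pool.Agent.Lib.MP_a966e6_co.PNU.Run

/-! Data: pages of `K_102`. -/

set_option autoImplicit false

namespace Pool.Agent.Lib.MP_a966e6_co.PNU.Dat

def dU34 : List Pg := [
  (34, [0, 1, 2, 3, 4, 5, 6, 7, 8, 9, 10, 11, 12, 13, 14, 15, 16], [11], 0x1000000047000f8003a000d40026330640000000000000168003a452312c00172a1782a00001380040000c0002a0009cc61400000a6001996824000000062382b04400001a0002c5507800000021800500010134be0d0000000001e1640032000a400242d8004661058000000000006c4926148001f31028000000000001b1790894650480000001e9440000108acc80600000002c00078000e0002082580280000001280038000c00026442e810000000000003b2415cb8001118006000000000000d0dc00100001c00021c8fc9e01),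
  (34, [17, 18, 19, 20, 21, 22, 23, 24, 25, 26, 27, 28, 29, 30, 31, 32, 33], [18], 0x20000000ac001c988360000000002e22924c6190000000342017c2e0000000002a0005894553205000001e8003c5b09000000000000583e1f92cb810000000043000b40026289641c000000000000a8c0904f328340000208004e00119741800000e8002900074001c2a0280000000004a4629800445e048000000210006658000a0b40800000004e300000018191840e00000000020000446c382601800001b80000210002c5e5202000004d000f0003100090cc0300000002b00068000f2211c0400000003e00028eca001)]

theorem cU34 : chk 34 2 dU34 = true := by decide +kernel

end Pool.Agent.Lib.MP_a966e6_co.PNU.Dat
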