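import Pool.Agent.Lib.MP_a966e6_co.PNU.Run

/-! Data: pages of `K_18`. -/

set_option autoImplicit false

namespace Pool.Agent.Lib.MP_a966e6_co.PNU.Dat

def dU6 : List Pg := [
  (9, [0, 1, 2], [], 0x40000000000008000181a0f0881000000001c181001800000e0000000000282414000102c2401),
  (6, [3, 4], [], 0x4000000000000a070000e0f090140000000000c0b0000c1a1001000000c000000004040242201),
  (3, [5], [0, 1, 2, 3, 4, 5], 0x200)]

theorem cU6 : chk 6 3 dU6 = true := by decide +kernel

end Pool.Agent.Lib.MP_a966e6_co.PNU.Dat
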