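import Pool.Agent.Lib.MP_a966e6_co.PNU.Run

/-! Data: pages of `K_24`. -/

set_option autoImplicit false

namespace Pool.Agent.Lib.MP_a966e6_co.PNU.Dat

def dU8 : List Pg := [
  (12, [0, 1, 2], [], 0x20000000220006000101603000000009050000a0c014000000000160003840261702000000000000120d0700006000103c2a01),
  (12, [3, 4, 5], [], 0x2000000000000003026140002400080a8600e000000000060683c2c04000000000058000a0e0885c0400000001400018402401),
  (8, [6, 7], [2, 3, 4], 0x1000000000000281e110c0180000080001200038580400000480000040382e01)]

theorem cU8 : chk 8 4 dU8 = true := by decide +kernel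

end Pool.Agent.Lib.MP_a966e6_co.PNU.Dat
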