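import Pool.Agent.Lib.MP_a966e6_co.PNU.Check

set_option autoImplicit false

namespace Pool.Agent.Lib.MP_a966e6_co.PNU

def dFrC2_9 : List Base := [([(0, 0), (3, 3), (6, 6), (9, 9), (12, 12), (15, 15)],
   [([1, 16, 32, 42], [(1, 16), (1, 42), (16, 32), (16, 42), (32, 42)]),
    ([2, 5, 13, 25, 26, 40, 48], [(2, 5), (2, 25), (2, 48), (5, 13), (5, 25), (13, 25), (25, 26), (25, 48), (26, 40), (26, 48), (40, 48)]),
    ([3, 15, 29, 46, 53], [(3, 15), (3, 29), (3, 53), (15, 29), (29, 46), (29, 53), (46, 53)]),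
    ([4, 12, 20, 23, 31, 43, 44], [(4, 12), (4, 44), (12, 20), (12, 43), (12, 44), (20, 23), (20, 43), (23, 31), (23, 43), (31, 43), (43, 44)]),
    ([6, 19, 34, 50], [(6, 19), (6, 34), (6, 50), (19, 34), (34, 50)]),
    ([7, 8, 22, 30, 38, 41, 49], [(7, 8), (7, 30), (7, 38), (7, 41), (7, 49), (8, 22), (8, 30), (22, 30), (30, 38), (38, 41), (41, 49)]),
    ([10, 17, 21, 33, 47], [(10, 17), (10, 47), (17, 21), (17, 47), (21, 33), (21, 47), (33, 47)]),
    ([11, 28, 35, 39, 51], [(11, 28), (11, 35), (11, 39), (11, 51), (28, 35), (35, 39), (39, 51)]),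
    ([14, 24, 37, 52], [(14, 24), (14, 52), (24, 37), (24, 52), (37, 52)])]),
  ([(0, 1), (3, 4), (6, 7), (9, 10), (12, 13), (15, 16)],
   [([0, 17, 32, 38], [(0, 17), (0, 38), (17, 32), (17, 38), (32, 38)]),
    ([2, 18, 35, 50], [(2, 18), (2, 35), (2, 50), (18, 35), (35, 50)]),
    ([3, 13, 23, 25, 42, 44], [(3, 13), (3, 23), (3, 25), (3, 44), (13, 23), (23, 25), (25, 42), (25, 44), (42, 44)]),
    ([4, 9, 15, 30, 34, 47], [(4, 9), (4, 34), (4, 47), (9, 15), (9, 30), (9, 34), (15, 30), (30, 34), (34, 47)]),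
    ([5, 7, 24, 26, 39, 49], [(5, 7), (5, 39), (5, 49), (7, 24), (7, 26), (7, 39), (24, 26), (26, 39), (39, 49)]),
    ([6, 8, 21, 31, 41, 43], [(6, 8), (6, 43), (8, 21), (8, 43), (21, 31), (21, 41), (21, 43), (31, 41), (41, 43)]),
    ([11, 22, 27, 33, 48, 52], [(11, 22), (11, 52), (22, 27), (22, 52), (27, 33), (27, 48), (27, 52), (33, 48), (48, 52)]),
    ([12, 16, 29, 40, 45, 51], [(12, 16), (12, 45), (12, 51), (16, 29), (16, 40), (16, 45), (29, 40), (40, 45), (45, 51)]),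
    ([14, 20, 36, 53], [(14, 20), (14, 53), (20, 36), (20, 53), (36, 53)])]),
  ([(0, 2), (3, 5), (6, 8)],
   [([0, 3, 19, 23, 35, 42, 49, 52], [(0, 3), (0, 19), (0, 52), (3, 19), (19, 23), (19, 52), (23, 35), (23, 42), (23, 49), (23, 52), (35, 42), (42, 49), (49, 52)]),
    ([1, 5, 17, 24, 31, 34, 36, 39], [(1, 5), (1, 34), (1, 36), (1, 39), (5, 17), (5, 24), (5, 31), (5, 34), (17, 24), (24, 31), (31, 34), (34, 36), (36, 39)]),
    ([4, 7, 9, 12, 28, 32, 44, 51], [(4, 7), (4, 32), (4, 51), (7, 9), (7, 28), (7, 32), (9, 12), (9, 28), (12, 28), (28, 32), (32, 44), (32, 51), (44, 51)]),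
    ([6, 13, 16, 18, 21, 37, 41, 53], [(6, 13), (6, 41), (6, 53), (13, 16), (13, 41), (16, 18), (16, 37), (16, 41), (18, 21), (18, 37), (21, 37), (37, 41), (41, 53)]),
    ([8, 15, 22, 25, 27, 30, 46, 50], [(8, 15), (8, 50), (15, 22), (15, 50), (22, 25), (22, 50), (25, 27), (25, 46), (25, 50), (27, 30), (27, 46), (30, 46), (46, 50)]),
    ([10, 14, 26, 33, 40, 43, 45, 48], [(10, 14), (10, 43), (10, 45), (10, 48), (14, 26), (14, 33), (14, 40), (14, 43), (26, 33), (33, 40), (40, 43), (43, 45), (45, 48)])]),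
  ([(0, 11), (3, 14), (6, 17)],
   [([0, 5, 10, 16, 30, 31, 42, 53], [(0, 5), (0, 30), (0, 53), (5, 10), (5, 30), (10, 16), (10, 30), (16, 30), (30, 31), (30, 53), (31, 42), (31, 53), (42, 53)]),
    ([1, 7, 21, 22, 33, 44, 45, 50], [(1, 7), (1, 21), (1, 50), (7, 21), (21, 22), (21, 44), (21, 45), (21, 50), (22, 33), (22, 44), (33, 44), (44, 45), (45, 50)]),
    ([3, 4, 15, 26, 27, 32, 37, 43], [(3, 4), (3, 26), (3, 27), (3, 32), (3, 37), (3, 43), (4, 15), (4, 26), (15, 26), (26, 27), (27, 32), (32, 37), (37, 43)]),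
    ([6, 17, 18, 23, 28, 34, 48, 49], [(6, 17), (6, 49), (17, 18), (17, 48), (17, 49), (18, 23), (18, 48), (23, 28), (23, 48), (28, 34), (28, 48), (34, 48), (48, 49)]),
    ([8, 9, 14, 19, 25, 39, 40, 51], [(8, 9), (8, 39), (8, 40), (8, 51), (9, 14), (9, 39), (14, 19), (14, 39), (19, 25), (19, 39), (25, 39), (39, 40), (40, 51)]),
    ([12, 13, 24, 35, 36, 41, 46, 52], [(12, 13), (12, 35), (12, 36), (12, 41), (12, 46), (12, 52), (13, 24), (13, 35), (24, 35), (35, 36), (36, 41), (41, 46), (46, 52)])])]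

theorem pFrC2_9 : FrC 2 9 := sys_of_check _ _ _ _ dFrC2_9 (by decide +kernel)

end Pool.Agent.Lib.MP_a966e6_co.PNU
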