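import Pool.Agent.Lib.MP_a966e6_co.PNU.Run

/-! Data: pages of `K_42`. -/

set_option autoImplicit false

namespace Pool.Agent.Lib.MP_a966e6_co.PNU.Dat

def dU14 : List Pg := [
  (21, [0, 1, 2, 3, 4, 5, 6], [], 0x80000000000000140e8001823128a816000000036270005c001600044500a0000000000a80020200003842290400000000003400090001c301a12010000000000000f00014321c0f08806000007c00000001824000104c4c01),
  (21, [7, 8, 9, 10, 11, 12, 13], [6, 13], 0x400000000026201402c000000000220006078422604800001d00000000f0b06852060000030000900014250200000000c87c00101380c00000b8001a220100000000002028000286c4801)]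

theorem cU14 : chk 14 3 dU14 = true := by decide +kernel

end Pool.Agent.Lib.MP_a966e6_co.PNU.Dat
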