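import Pool.Agent.Lib.MP_a966e6_co.PNU.Run

/-! Data: pages of `K_63`. -/

set_option autoImplicit false

namespace Pool.Agent.Lib.MP_a966e6_co.PNU.Dat

def dUT21 : List Pg := [
  (21, [20, 0, 1, 2, 3, 4, 5], [20], 0x1000000000000b4001a1900032000a00022361e03c00000008c0017180e81a0000000002b198d0001c1e82c00000000000160f07c503503800000000040442c1c0180000000004e391d80000000c0000a1d108f8080000000000000048482614800182e000205e03000004a000003836370100000200004c000a000246201),
  (21, [6, 7, 8, 9, 10, 11, 12], [16], 0x20000000001d000505e3f0800000360009c00221e8380000000840012140e01a000000046370004c780c0000056000f80036000c8e4160000000543a000687c080000058000c0cc0e00000000015128a46405000000016000280006120d40800000002e1e1880c00000e000122d010000000000805c300003c6801),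
  (21, [13, 14, 15, 16, 17, 18, 19], [0], 0x1000000000000003c2c000545c31000506e0c000006000128003400098ec1600000005a00118e4001d1e0280000000d80022000707c000c8002e3f04800000000060000e1209c6808000000000100a05e00088e80c00000d400000d80020261e81400000007c0012190001e3801800000000084000d0001c5200020a86602)]

theorem cUT21 : chk 21 3 dUT21 = true := by decide +kernel

theorem tUT21 : hasT 21 3 dUT21 = true := by decide +kernel

end Pool.Agent.Lib.MP_a966e6_co.PNU.Dat
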